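import Mathlib

open Finset Filter Topology

namespace Pool.Agent.Results.MP_8f7167_an.Blocks

/-- A consistent matrix (indices from `0`). -/
def Consistent (t : ℕ → ℕ → ℝ) : Prop :=
  (∀ n, Summable fun m => |t n m|) ∧ (∃ C : ℝ, ∀ n, ∑' m, |t n m| ≤ C) ∧
    (∀ m, Tendsto (fun n => t n m) atTop (𝓝 0)) ∧ Tendsto (fun n => ∑' m, t n m) atTop (𝓝 1)

/-- The scalars `a` expand `v`: every `σ_n = lim_m σ_(nm)` exists and `σ_n → v`. -/
def Expands {V : Type} [NormedAddCommGroup V] [NormedSpace ℝ V]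
    (t : ℕ → ℕ → ℝ) (x : ℕ → V) (a : ℕ → ℝ) (v : V) : Prop :=
  ∃ σ : ℕ → V, (∀ n, Tendsto (fun m => ∑ j ∈ range m, t n j • ∑ i ∈ range (j + 1), a i • x i)
    atTop (𝓝 (σ n))) ∧ Tendsto σ atTop (𝓝 v)

/-- `x` is a `T`-basis. -/
def TBasis {V : Type} [NormedAddCommGroup V] [NormedSpace ℝ V]
    (t : ℕ → ℕ → ℝ) (x : ℕ → V) : Prop := ∀ v, ∃! a, Expands t x a v

/-- The series `∑ λ_(n,i) a_i x_i` with `λ_(n,i) = ∑_(j ≥ i) t_(n,j)` converges in norm. -/
def Conv {V : Type} [NormedAddCommGroup V] [NormedSpace ℝ V]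
    (t : ℕ → ℕ → ℝ) (x : ℕ → V) (a : ℕ → ℝ) (n : ℕ) : Prop :=
  ∃ w, Tendsto (fun m => ∑ i ∈ range m, ((∑' j, t n (i + j)) * a i) • x i) atTop (𝓝 w)

abbrev E := lp (fun _ : ℕ => ℝ) 2

noncomputable def e (i : ℕ) : E := lp.single 2 i (1 : ℝ)

noncomputable def X (i : ℕ) : E := if i % 2 = 0 then e i else e (i - 1) + (1 / 4 : ℝ) ^ i • e i

noncomputable def c (a : ℕ → ℝ) (i : ℕ) : ℝ :=
  if i % 2 = 0 then a i + a (i + 1) else (1 / 4 : ℝ) ^ i * a i

noncomputable def T (n j : ℕ) : ℝ :=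
  if n = 0 then (if j % 2 = 1 then (1 / 2 : ℝ) ^ j else 0) else if j = 2 * n + 1 then 1 else 0

lemma S (a : ℕ → ℝ) (k : ℕ) :
    ∑ i ∈ range (2 * k), a i • X i = ∑ i ∈ range (2 * k), c a i • e i := by
  induction k with
  | zero => simp
  | succ k ih =>
    rw [show 2 * (k + 1) = 2 * k + 1 + 1 by ring, sum_range_succ, sum_range_succ, ih,
      sum_range_succ, sum_range_succ]
    have h1 : (2 * k) % 2 = 0 := by omega
    have h2 : ¬ (2 * k + 1) % 2 = 0 := by omega
    simp only [X, c, h1, h2, if_true, if_false, Nat.add_sub_cancel]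
    module

lemma T0 (n j : ℕ) : 0 ≤ T n j := by unfold T; split_ifs <;> positivity

lemma T1 (j : ℕ) : T 0 j ≤ (1 / 2 : ℝ) ^ j := by
  simp only [T, if_true]; split_ifs
  · exact le_rfl
  · positivity

lemma Ts0 : Summable (T 0) := Summable.of_nonneg_of_le (T0 0) T1 summable_geometric_two

lemma Th {n : ℕ} (hn : n ≠ 0) : HasSum (T n) 1 := by
  have : T n = fun j => if j = 2 * n + 1 then 1 else 0 := by ext j; simp [T, hn]
  rw [this]; exact hasSum_ite_eq _ _

lemma row {n : ℕ} (hn : n ≠ 0) (f : ℕ → E) :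
    Tendsto (fun m => ∑ j ∈ range m, T n j • f j) atTop (𝓝 (f (2 * n + 1))) := by
  have : (fun j => T n j • f j) = fun j => if j = 2 * n + 1 then f (2 * n + 1) else 0 := by
    ext1 j; simp only [T, hn, if_false]; split_ifs with h
    · rw [h, one_smul]
    · rw [zero_smul]
  have h2 := (hasSum_ite_eq (2 * n + 1) (f (2 * n + 1))).tendsto_sum_nat
  rw [← this] at h2
  exact h2

lemma ev (i : ℕ) : Continuous fun v : E => v i :=
  (lp.uniformContinuous_coe.continuous |> (continuous_apply i).comp)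

lemma trunc (v : E) : Tendsto (fun m => ∑ i ∈ range m, v i • e i) atTop (𝓝 v) := by
  have := (lp.hasSum_single (p := 2) (by norm_num) v).tendsto_sum_nat
  refine this.congr fun m => sum_congr rfl fun i _ => ?_
  rw [e, ← lp.single_smul, smul_eq_mul, mul_one]

noncomputable def A (v : E) (i : ℕ) : ℝ :=
  if i % 2 = 0 then v i - 4 ^ (i + 1) * v (i + 1) else 4 ^ i * v i

lemma cA (v : E) (i : ℕ) : c (A v) i = v i := by
  unfold c A
  by_cases h : i % 2 = 0
  · have : ¬ (i + 1) % 2 = 0 := by omega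
    simp [h, this]
  · simp only [h, if_false]
    rw [← mul_assoc, ← mul_pow]; simp

lemma ex (v : E) : Expands T X (A v) v := by
  obtain ⟨M, hM⟩ := (trunc v).norm.bddAbove_range
  have hs : Summable fun j => T 0 j • ∑ i ∈ range (j + 1), A v i • X i := by
    refine Summable.of_norm_bounded (Ts0.mul_right M) fun j => ?_
    rw [norm_smul, Real.norm_of_nonneg (T0 0 j)]
    by_cases h : j % 2 = 1
    · refine mul_le_mul_of_nonneg_left ?_ (T0 0 j)
      obtain ⟨k, hk⟩ : ∃ k, j + 1 = 2 * k := ⟨(j + 1) / 2, by omega⟩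
      rw [hk, S]; simp only [cA]
      exact hM ⟨2 * k, rfl⟩
    · simp [T, h]
  refine ⟨fun n => if n = 0 then ∑' j, T 0 j • ∑ i ∈ range (j + 1), A v i • X i
    else ∑ i ∈ range (2 * n + 1 + 1), A v i • X i, fun n => ?_, ?_⟩
  · by_cases hn : n = 0
    · subst hn; simpa using hs.hasSum.tendsto_sum_nat
    · simp only [hn, if_false]
      exact row hn fun j => ∑ i ∈ range (j + 1), A v i • X i
  · have h1 : Tendsto (fun n : ℕ => 2 * (n + 1)) atTop atTop :=
      tendsto_atTop_mono (fun n => by simp only [id]; omega) tendsto_id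
    refine ((trunc v).comp h1).congr' ?_
    filter_upwards [eventually_ne_atTop 0] with n hn
    simp only [hn, if_false, Function.comp]
    rw [show 2 * n + 1 + 1 = 2 * (n + 1) by ring, S]; simp only [cA]

lemma un (v : E) (a : ℕ → ℝ) (h : Expands T X a v) : a = A v := by
  obtain ⟨σ, h1, h2⟩ := h
  have hc : ∀ i, c a i = v i := by
    intro i
    have h3 := ((ev i).tendsto v).comp h2
    refine tendsto_nhds_unique (tendsto_const_nhds.congr' ?_) h3
    filter_upwards [eventually_gt_atTop i] with n hn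
    have := tendsto_nhds_unique (h1 n)
      (row (by omega) fun j => ∑ i ∈ range (j + 1), a i • X i)
    simp only [Function.comp]
    rw [this, show 2 * n + 1 + 1 = 2 * (n + 1) by ring, S, lp.coeFn_sum, Finset.sum_apply,
      sum_eq_single i]
    · simp [e]
    · intro j _ hj; simp [e, lp.single_apply, Pi.single_apply, hj.symm]
    · intro hi; exact absurd (mem_range.2 (by omega)) hi
  have odd : ∀ i, ¬ i % 2 = 0 → a i = 4 ^ i * v i := by
    intro i hi
    rw [← hc i]; simp only [c, hi, if_false]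
    rw [← mul_assoc, ← mul_pow]; simp
  ext i
  unfold A
  split_ifs with hi
  · have := hc i
    simp only [c, hi, if_true] at this
    rw [← this, ← odd (i + 1) (by omega)]; ring
  · exact odd i hi

lemma main : ∃ t, Consistent t ∧ ∃ x : ℕ → E, TBasis t x ∧ ∃ (v : E) (a : ℕ → ℝ) (n : ℕ),
    Expands t x a v ∧ ¬ Conv t x a n := by
  have habs : ∀ n, (fun m => |T n m|) = T n := fun n => funext fun m => abs_of_nonneg (T0 n m)
  have hv : Memℓp (fun i : ℕ => (1 / 2 : ℝ) ^ i) 2 := by
    refine memℓp_gen ?_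
    have := summable_geometric_of_lt_one (r := (1 / 4 : ℝ)) (by norm_num) (by norm_num)
    refine this.congr fun i => ?_
    rw [Real.norm_of_nonneg (by positivity), ENNReal.toReal_ofNat, Real.rpow_two, ← pow_mul,
      mul_comm, pow_mul]
    norm_num
  refine ⟨T, ⟨fun n => ?_, ⟨max (∑' m, T 0 m) 1, fun n => ?_⟩, fun m => ?_, ?_⟩, X,
    fun v => ⟨A v, ex v, fun a ha => un v a ha⟩, ⟨_, hv⟩, _, 0, ex _, ?_⟩
  · rw [habs]
    by_cases hn : n = 0
    · subst hn; exact Ts0
    · exact (Th hn).summable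
  · rw [habs]
    by_cases hn : n = 0
    · subst hn; exact le_max_left _ _
    · rw [(Th hn).tsum_eq]; exact le_max_right _ _
  · refine tendsto_const_nhds.congr' ?_
    filter_upwards [eventually_gt_atTop m] with n hn
    simp only [T]
    rw [if_neg (by omega), if_neg (by omega)]
  · refine tendsto_const_nhds.congr' ?_
    filter_upwards [eventually_ne_atTop 0] with n hn
    exact (Th hn).tsum_eq.symm
  · rintro ⟨w, hw⟩
    have h1 := (hw.comp (tendsto_add_atTop_nat 1)).sub hw
    simp only [Function.comp, sum_range_succ, add_sub_cancel_left, sub_self] at h1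
    have h2 := h1.norm
    rw [norm_zero] at h2
    obtain ⟨N, hN⟩ := eventually_atTop.1 (h2.eventually (gt_mem_nhds one_pos))
    have h3 := hN (2 * N + 1) (by omega)
    refine absurd h3 (not_lt.2 ?_)
    refine le_trans ?_ (lp.norm_apply_le_norm (p := 2) (by norm_num) _ (2 * N))
    have o1 : ¬ (2 * N + 1) % 2 = 0 := by omega
    have o2 : (2 * N + 1) % 2 = 1 := by omega
    have hX : X (2 * N + 1) (2 * N) = 1 := by
      simp only [X, o1, if_false, Nat.add_sub_cancel]
      simp [e, lp.single_apply, Pi.single_apply]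
    have hs : Summable fun j => T 0 (2 * N + 1 + j) := by
      have := (summable_nat_add_iff (2 * N + 1)).2 Ts0
      exact this.congr fun j => by rw [add_comm]
    have hl := hs.le_tsum 0 fun j _ => T0 _ _
    have ht : T 0 (2 * N + 1 + 0) = (1 / 2 : ℝ) ^ (2 * N + 1) := by simp [T, o2]
    rw [ht] at hl
    rw [lp.coeFn_smul, Pi.smul_apply, hX, smul_eq_mul, mul_one]
    refine le_trans ?_ (le_abs_self _)
    simp only [A, o1, if_false]
    have e1 : (1 / 2 : ℝ) ^ (2 * N + 1) * (4 ^ (2 * N + 1) * (1 / 2 : ℝ) ^ (2 * N + 1)) = 1 := by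
      rw [← mul_pow, ← mul_pow]; norm_num
    exact e1.symm.le.trans (mul_le_mul_of_nonneg_right hl (by positivity))

theorem result : ∃ (V : Type) (_ : NormedAddCommGroup V) (_ : NormedSpace ℝ V)
    (_ : CompleteSpace V) (t : ℕ → ℕ → ℝ), Consistent t ∧ ∃ x : ℕ → V, TBasis t x ∧
      ∃ (v : V) (a : ℕ → ℝ) (n : ℕ), Expands t x a v ∧ ¬ Conv t x a n :=
  ⟨E, inferInstance, inferInstance, inferInstance, main⟩

end Pool.Agent.Results.MP_8f7167_an.Blocks
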